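import Pool.Agent.Y723.Z8.StmD
import Pool.Agent.Y87.Z8.PAR

/-!
# Z8D-PARD: the curves with a subgroup `Z/2 × Z/8` ordered by the minimal discriminant

After `W806/RS/PARD6.lean`; the parametrisation is the one of `Y87/Z8/PAR.lean`.
-/

set_option autoImplicit false

namespace Pool.Agent.Y804.Z8

open Pool.Agent.W307.RT Pool.Agent.W307.RS Pool.Agent.W262.RK Pool.Agent.Y87.Z8
open Pool.Agent.Y723.Z8

theorem disc8 {A B M N g : ℤ} (hA : 3 * A = -(g ^ 4 * (M ^ 2 - M * N + N ^ 2)))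
    (hB : 27 * B = g ^ 6 * ((M + N) * (2 * M - N) * (M - 2 * N))) :
    4 * A ^ 3 + 27 * B ^ 2 = -(g ^ 12 * (M * N * (M - N)) ^ 2) := by
  have h : 27 * (4 * A ^ 3 + 27 * B ^ 2) = 27 * (-(g ^ 12 * (M * N * (M - N)) ^ 2)) := by
    have e : 27 * (4 * A ^ 3 + 27 * B ^ 2) = 4 * (3 * A) ^ 3 + (27 * B) ^ 2 := by ring
    rw [e, hA, hB]
    ring
  linarith

theorem key8 {A B M N g : ℤ} (hg : 0 < g)
    (hA : 3 * A = -(g ^ 4 * (M ^ 2 - M * N + N ^ 2)))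
    (hB : 27 * B = g ^ 6 * ((M + N) * (2 * M - N) * (M - 2 * N))) :
    (M * N * (M - N)).natAbs ^ 2 ≤ (4 * A ^ 3 + 27 * B ^ 2).natAbs := by
  have h1 : 1 ≤ g.natAbs ^ 12 := Nat.one_le_pow _ _ (Int.natAbs_pos.2 hg.ne')
  rw [disc8 hA hB, Int.natAbs_neg]
  generalize M * N * (M - N) = X
  rw [Int.natAbs_mul, Int.natAbs_pow, Int.natAbs_pow]
  calc X.natAbs ^ 2 = 1 * X.natAbs ^ 2 := (one_mul _).symm
    _ ≤ _ := Nat.mul_le_mul_right _ h1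

theorem pard8_of (hM : Pool.Agent.W307.RS.MDL) : S_PARD8 := by
  refine ⟨6 ^ 12, F8p, fun Z => ⟨?_, ?_⟩⟩
  · intro c hc c' hc' hcc
    obtain ⟨hD, hmin, hT, -⟩ := hc
    obtain ⟨hD', hmin', hT', -⟩ := hc'
    have r := F8p_rel (core8 hD hT)
    have r' := F8p_rel (core8 hD' hT')
    change Rel8 c (F8p c) at r
    change Rel8 c' (F8p c') at r'
    rw [← hcc] at r'
    exact rel8_unique r r' hmin hmin'
  · intro c hc
    obtain ⟨hD, hmin, hT, hZ⟩ := hc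
    have r := F8p_rel (core8 hD hT)
    change Rel8 c (F8p c) at r
    obtain ⟨hm, -⟩ := hM c.1 c.2 hD hmin
    set ab := F8p c with hab
    clear_value ab
    obtain ⟨A, B⟩ := c
    obtain ⟨a, b⟩ := ab
    obtain ⟨g, e, hg, hco, hM0, hN0, hne, he, hA, hB⟩ := r
    refine ⟨hco, hM0, hN0, hne, ?_, fin_eq8 hg he hA hB⟩
    have h3 := key8 hg hA hB
    change (M8 a b * N8 a b * (M8 a b - N8 a b)).natAbs ^ 2 ≤
      (4 * A ^ 3 + 27 * B ^ 2).natAbs at h3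
    change (M8 a b * N8 a b * (M8 a b - N8 a b)).natAbs ^ 2 ≤ 6 ^ 12 * Z
    change (16 * (4 * A ^ 3 + 27 * B ^ 2)).natAbs ≤ 6 ^ 12 * mD (Sh A B) at hm
    change mD (Sh A B) ≤ Z at hZ
    rw [Int.natAbs_mul] at hm
    have h5 : 6 ^ 12 * mD (Sh A B) ≤ 6 ^ 12 * Z := Nat.mul_le_mul_left _ hZ
    have h6 : (16 : ℤ).natAbs = 16 := rfl
    rw [h6] at hm
    omega

end Pool.Agent.Y804.Z8
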